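import Pool.Agent.Q30.FK.Stm2

/-!
# The evaluation at a one-parameter subgroup
-/

namespace Pool.Agent.Q53.FK

open Q30.FK Finset

variable {k : Type} [Field k] [CharP k 2]

/-- Families of functions of sequences of points. -/
abbrev Fm (k : Type) [Field k] [CharP k 2] : Type 1 := ∀ X : Alg k, (ℕ → Bor X) → X.A

/-- Naturality. -/
def Nt (f : Fm k) : Prop := ∀ (X Y : Alg k) (φ : X.A →ₐ[k] Y.A) (g : ℕ → Bor X),
  φ (f X g) = f Y (fun i => Bor.map φ (g i))

/-- The function depends only on the first `n + 1` entries. -/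
def Lc (n : ℕ) (f : Fm k) : Prop :=
  ∀ (X : Alg k) (g g' : ℕ → Bor X), (∀ i ≤ n, g i = g' i) → f X g = f X g'

/-- Invariance under the one-parameter subgroup. -/
def Iv (p : Path k) (f : Fm k) : Prop :=
  ∀ (X : Alg k) (x : X.A) (hx : x ^ 4 = 0) (g : ℕ → Bor X),
    f X (fun i => p.h X x hx * g i) = f X g

/-- The coefficient of `x ^ 2` at the translated sequence with first entry `1`. -/
def R (p : Path k) : Fm k →+ Fm k where
  toFun f := fun X g => cfA X 2 (f (t4 X) (Ser.cons 1 (p.tg X g)))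
  map_zero' := by
    funext X g
    exact map_zero (cfA X 2)
  map_add' f f' := by
    funext X g
    exact map_add (cfA X 2) _ _

theorem R_apply (p : Path k) (f : Fm k) (X : Alg k) (g : ℕ → Bor X) :
    R p f X g = cfA X 2 (f (t4 X) (Ser.cons 1 (p.tg X g))) := rfl

/-- Iterates. -/
def Rn (p : Path k) : ℕ → (Fm k →+ Fm k)
  | 0 => AddMonoidHom.id _
  | n + 1 => (Rn p n).comp (R p)

theorem Rn_zero (p : Path k) (f : Fm k) : Rn p 0 f = f := rfl
theorem Rn_succ (p : Path k) (n : ℕ) (f : Fm k) : Rn p (n + 1) f = Rn p n (R p f) := rfl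

theorem Rn_add (p : Path k) (m n : ℕ) (f : Fm k) : Rn p (m + n) f = Rn p n (Rn p m f) := by
  induction m generalizing f with
  | zero => rw [Nat.zero_add, Rn_zero]
  | succ m ih => rw [show m + 1 + n = (m + n) + 1 by ring, Rn_succ, ih, Rn_succ]

theorem R_nt (p : Path k) {f : Fm k} (hf : Nt f) : Nt (R p f) := by
  intro X Y φ g
  rw [R_apply, cfA_nat, hf, R_apply]
  congr 2
  funext i
  cases i with
  | zero => exact map_one (Bor.map _)
  | succ i =>
    rw [Ser.cons_succ, Ser.cons_succ, p.map_tg]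
    rfl

theorem Rn_nt (p : Path k) (n : ℕ) {f : Fm k} (hf : Nt f) : Nt (Rn p n f) := by
  induction n generalizing f with
  | zero => exact hf
  | succ n ih => exact ih (R_nt p hf)

theorem R_lc (p : Path k) {n : ℕ} {f : Fm k} (hf : Lc (n + 1) f) : Lc n (R p f) := by
  intro X g g' h
  rw [R_apply, R_apply]
  refine congrArg (cfA X 2) (hf (t4 X) _ _ (fun i hi => ?_))
  cases i with
  | zero => rfl
  | succ i =>
    rw [Ser.cons_succ, Ser.cons_succ]
    unfold Path.tg
    rw [h i (by omega)]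

theorem Rn_lc (p : Path k) (n m : ℕ) {f : Fm k} (hf : Lc (n + m) f) : Lc m (Rn p n f) := by
  induction n generalizing f with
  | zero =>
    rw [Nat.zero_add] at hf
    exact hf
  | succ n ih =>
    rw [show n + 1 + m = (n + m) + 1 by ring] at hf
    exact ih (R_lc p hf)

omit [CharP k 2] in
theorem cf2_x1 (X : Alg k) : cfA X 2 (xA X) = 0 := rfl

omit [CharP k 2] in
theorem cf2_x2 (X : Alg k) : cfA X 2 (xA X ^ 2) = 1 :=
  (congrArg (T4.cf 2) (T4.xx_two (A := X.A))).trans rfl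

omit [CharP k 2] in
theorem cf2_x3 (X : Alg k) : cfA X 2 (xA X ^ 3) = 0 :=
  (congrArg (T4.cf 2) (T4.xx_three (A := X.A))).trans rfl

omit [CharP k 2] in
theorem cfA_inc (X : Alg k) (j : ℕ) (hj : 0 < j) (a : X.A) : cfA X j (incA X a) = 0 := by
  match j, hj with
  | 1, _ => rfl
  | 2, _ => rfl
  | 3, _ => rfl
  | j + 4, _ => rfl

/-- The value at the constant sequence. -/
def ct (f : Fm k) : Fm k := fun X _ => f X (fun _ => 1)

theorem ct_nt {f : Fm k} (hf : Nt f) : Nt (ct f) := by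
  intro X Y φ g
  unfold ct
  rw [hf]
  congr 1
  funext i
  exact map_one (Bor.map φ)

theorem lc_zero {f : Fm k} (hn : Nt f) (hf : Lc 0 f) (X : Alg k) (g : ℕ → Bor (t4 X))
    (hg : g 0 = 1) : f (t4 X) g = incA X (f X (fun _ => 1)) := by
  rw [hn]
  apply hf
  intro i hi
  obtain rfl : i = 0 := by omega
  rw [hg]
  exact (map_one (Bor.map (incA X))).symm

theorem R_lc_zero (p : Path k) {f : Fm k} (hn : Nt f) (hf : Lc 0 f) : R p f = 0 := by
  funext X g
  rw [R_apply, lc_zero hn hf X _ (Ser.cons_zero _ _), cfA_inc X 2 (by norm_num)]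
  rfl

/-- Composition with the omission of an entry. -/
def sk (l : ℕ) : Fm k →+ Fm k where
  toFun f := fun X g => f X (Ser.skip l g)
  map_zero' := rfl
  map_add' _ _ := rfl

theorem sk_apply (l : ℕ) (f : Fm k) (X : Alg k) (g : ℕ → Bor X) :
    sk l f X g = f X (Ser.skip l g) := rfl

theorem R_sk_zero (p : Path k) {f : Fm k} (hn : Nt f) (hi : Iv p f) : R p (sk 0 f) = 0 := by
  funext X g
  rw [R_apply, sk_apply, Ser.skip_zero_cons]
  have h : f (t4 X) (p.tg X g) = incA X (f X g) := by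
    rw [hn]
    exact hi (t4 X) (xA X) (xA_four X) _
  rw [h, cfA_inc X 2 (by norm_num)]
  rfl

theorem R_sk_succ (p : Path k) (l : ℕ) (f : Fm k) : R p (sk (l + 1) f) = sk l (R p f) := by
  funext X g
  rw [R_apply, sk_apply, sk_apply, R_apply, Ser.skip_succ_cons]
  congr 3
  funext i
  unfold Path.tg Ser.skip
  split_ifs <;> rfl

theorem Rn_sk (p : Path k) (l m : ℕ) (f : Fm k) : Rn p l (sk (l + m) f) = sk m (Rn p l f) := by
  induction l generalizing f with
  | zero => rw [Nat.zero_add]; rfl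
  | succ l ih =>
    rw [show l + 1 + m = (l + m) + 1 by ring, Rn_succ, R_sk_succ, ih, Rn_succ]

theorem R_R (p : Path k) {f : Fm k} (hn : Nt f) : R p (sk 0 (R p f)) = 0 := by
  funext X g
  rw [R_apply, sk_apply, Ser.skip_zero_cons, R_apply]
  change cfA X 2 (cfA (t4 X) 2 (f (t4 (t4 X)) (Ser.cons 1 (p.tg (t4 X) (p.tg X g))))) = 0
  set Z := t4 (t4 X) with hZ
  -- the value of the variable
  set y : Z.A := xA (t4 X) + incA (t4 X) (xA X) with hy
  have hy4 : y ^ 4 = 0 := by
    rw [hy, add_pow_four, xA_four, ← map_pow, xA_four, map_zero, add_zero]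
  have key := hn (t4 X) Z (liftA ((incA (t4 X)).comp (incA X)) y hy4)
    (Ser.cons 1 (p.tg X g))
  have e : (fun i => Bor.map (liftA ((incA (t4 X)).comp (incA X)) y hy4)
      (Ser.cons 1 (p.tg X g) i)) = Ser.cons 1 (p.tg (t4 X) (p.tg X g)) := by
    funext i
    cases i with
    | zero => exact map_one (Bor.map _)
    | succ i =>
      rw [Ser.cons_succ, Ser.cons_succ, p.map_tg]
      unfold Path.tg
      rw [map_mul, ← mul_assoc, p.nat (t4 X) (t4 (t4 X)) (incA (t4 X)) (xA X) (xA_four X)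
        (by rw [← map_pow, xA_four, map_zero]),
        ← p.add (t4 (t4 X)) (xA (t4 X)) (incA (t4 X) (xA X)) (xA_four (t4 X))
        (by rw [← map_pow, xA_four, map_zero]) hy4]
      rfl
  rw [e] at key
  rw [← key, liftA_apply]
  generalize cfA X 0 (f (t4 X) (Ser.cons 1 (p.tg X g))) = c0
  generalize cfA X 1 (f (t4 X) (Ser.cons 1 (p.tg X g))) = c1
  generalize cfA X 2 (f (t4 X) (Ser.cons 1 (p.tg X g))) = c2
  generalize cfA X 3 (f (t4 X) (Ser.cons 1 (p.tg X g))) = c3
  have e2 : ((incA (t4 X)).comp (incA X)) c0 + ((incA (t4 X)).comp (incA X)) c1 * y +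
      ((incA (t4 X)).comp (incA X)) c2 * y ^ 2 + ((incA (t4 X)).comp (incA X)) c3 * y ^ 3 =
      incA (t4 X) (incA X c0 + incA X c1 * xA X + incA X c2 * xA X ^ 2 + incA X c3 * xA X ^ 3) +
      incA (t4 X) (incA X c1 + 2 * incA X c2 * xA X + 3 * incA X c3 * xA X ^ 2) * xA (t4 X) +
      incA (t4 X) (incA X c2 + 3 * incA X c3 * xA X) * xA (t4 X) ^ 2 +
      incA (t4 X) (incA X c3) * xA (t4 X) ^ 3 := by
    rw [hy]
    simp only [AlgHom.comp_apply, map_add, map_mul, map_pow, map_ofNat]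
    ring
  rw [e2]
  simp only [map_add (cfA (t4 X) 2)]
  rw [cfA_inc _ 2 (by norm_num), cfA_inc_mul, cfA_inc_mul, cfA_inc_mul, cf2_x1, cf2_x2, cf2_x3,
    mul_zero, mul_zero, mul_one, zero_add, zero_add, add_zero, map_add, cfA_inc _ 2 (by norm_num),
    zero_add]
  have e3 : (3 : (t4 X).A) * incA X c3 * xA X = incA X (3 * c3) * xA X := by
    rw [map_mul, map_ofNat]
  rw [e3, cfA_inc_mul, cf2_x1, mul_zero]

/-- The faces of a natural invariant function are killed. -/
theorem Rn_face (p : Path k) (n l : ℕ) (hl : l ≤ n + 1) {f : Fm k} (hn : Nt f) (hi : Iv p f)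
    (hf : Lc n f) : Rn p (n + 1) (sk l f) = 0 := by
  rcases Nat.eq_zero_or_pos l with rfl | hl0
  · rw [Rn_succ, R_sk_zero p hn hi, map_zero]
  obtain ⟨j, rfl⟩ : ∃ j, l = j + 1 := ⟨l - 1, by omega⟩
  rcases Nat.lt_or_ge n (j + 1) with h | h
  · obtain rfl : j = n := by omega
    have h1 := Rn_sk p (j + 1) 0 f
    rw [Nat.add_zero] at h1
    rw [h1, Rn_add p j 1 f, Rn_succ, Rn_zero]
    have h2 : Lc 0 (Rn p j f) := Rn_lc p j 0 (by rwa [Nat.add_zero])
    rw [R_lc_zero p (Rn_nt p j hn) h2, map_zero]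
  · obtain ⟨m, rfl⟩ : ∃ m, n = j + 1 + m := ⟨n - (j + 1), by omega⟩
    have h1 := Rn_sk p (j + 1) 0 f
    rw [Nat.add_zero] at h1
    rw [show j + 1 + m + 1 = (j + 1) + (m + 1) by ring, Rn_add p (j + 1) (m + 1), h1, Rn_succ,
      Rn_add p j 1 f, Rn_succ, Rn_zero, R_R p (Rn_nt p j hn), map_zero]

/-- Composition with the shift. -/
def hs (m : ℕ) (f : Fm k) : Fm k := fun X g => f X (Ser.sh m g)

theorem R_mul_hs (p : Path k) (m : ℕ) (f : Fm k) {G : Fm k} (hn : Nt G) (hi : Iv p G) :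
    R p (f * hs (m + 1) G) = R p f * hs m G := by
  funext X g
  rw [R_apply]
  change cfA X 2 (f (t4 X) (Ser.cons 1 (p.tg X g)) *
    G (t4 X) (Ser.sh (m + 1) (Ser.cons 1 (p.tg X g)))) = _
  have h1 : Ser.sh (m + 1) (Ser.cons 1 (p.tg X g)) =
      fun i => p.h (t4 X) (xA X) (xA_four X) * Bor.map (incA X) (Ser.sh m g i) := by
    funext i
    exact Ser.cons_succ _ _ (i + m)
  rw [h1, hi (t4 X) (xA X) (xA_four X) (fun i => Bor.map (incA X) (Ser.sh m g i)), ← hn X (t4 X)
    (incA X) (Ser.sh m g), mul_comm, cfA_inc_mul, mul_comm]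
  rfl

theorem hs_zero (f : Fm k) : hs 0 f = f := rfl

theorem Rn_mul_hs (p : Path k) (m : ℕ) (f : Fm k) {G : Fm k} (hn : Nt G) (hi : Iv p G) :
    Rn p m (f * hs m G) = Rn p m f * G := by
  induction m generalizing f with
  | zero => rfl
  | succ m ih => rw [Rn_succ, R_mul_hs p m f hn hi, ih, Rn_succ]

theorem R_mul_zero (p : Path k) {f : Fm k} (hn : Nt f) (hf : Lc 0 f) (G : Fm k) :
    R p (f * G) = ct f * R p G := by
  funext X g
  rw [R_apply]
  change cfA X 2 (f (t4 X) (Ser.cons 1 (p.tg X g)) * G (t4 X) (Ser.cons 1 (p.tg X g))) = _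
  rw [lc_zero hn hf X _ (Ser.cons_zero _ _), cfA_inc_mul]
  rfl

theorem ct_lc (f : Fm k) : Lc 0 (ct f) := fun _ _ _ _ => rfl

theorem Rn_mul_ct (p : Path k) (n : ℕ) {f : Fm k} (hn : Nt f) (G : Fm k) :
    Rn p n (ct f * G) = ct f * Rn p n G := by
  induction n generalizing G with
  | zero => rfl
  | succ n ih =>
    rw [Rn_succ, R_mul_zero p (ct_nt hn) (ct_lc f)]
    exact ih (R p G)

theorem Rn_mul_zero (p : Path k) (n : ℕ) {f : Fm k} (hn : Nt f) (hf : Lc 0 f) (G : Fm k)
    (X : Alg k) : Rn p n (f * G) X (fun _ => 1) =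
      f X (fun _ => 1) * Rn p n G X (fun _ => 1) := by
  cases n with
  | zero => rfl
  | succ n =>
    rw [Rn_succ, R_mul_zero p hn hf, Rn_mul_ct p n hn]
    rfl

/-- The value of a product of components. -/
theorem Rn_prod (p : Path k) (m n : ℕ) {f G : Fm k} (hn : Nt f) (hf : Lc m f) (hnG : Nt G)
    (hi : Iv p G) (X : Alg k) : Rn p (m + n) (f * hs m G) X (fun _ => 1) =
      Rn p m f X (fun _ => 1) * Rn p n G X (fun _ => 1) := by
  rw [Rn_add, Rn_mul_hs p m f hnG hi,
    Rn_mul_zero p n (Rn_nt p m hn) (Rn_lc p m 0 (by rwa [Nat.add_zero]))]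

/-- The components of a cochain. -/
def cm (n : ℕ) : Ch k →+ Fm k where
  toFun F := fun X g => F.1 X n g
  map_zero' := rfl
  map_add' _ _ := rfl

theorem cm_apply (n : ℕ) (F : Ch k) (X : Alg k) (g : ℕ → Bor X) : cm n F X g = F.1 X n g := rfl

theorem cm_nt (n : ℕ) (F : Ch k) : Nt (cm n F) := fun X Y φ g => F.2.1 X Y φ n g

theorem cm_lc (n : ℕ) (F : Ch k) : Lc n (cm n F) := fun X g g' h => F.2.2.1 X n g g' h

/-- The contribution of the component `n`. -/
noncomputable def vl (p : Path k) (n : ℕ) : Ch k →+ k where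
  toFun F := Rn p n (cm n F) (kk k) (fun _ => 1)
  map_zero' := by
    rw [map_zero, map_zero]
    rfl
  map_add' F G := by
    rw [map_add, map_add]
    rfl

theorem vl_apply (p : Path k) (n : ℕ) (F : Ch k) :
    vl p n F = Rn p n (cm n F) (kk k) (fun _ => 1) := rfl

theorem vl_zero (p : Path k) (n : ℕ) (F : Ch k) (h : ∀ X g, F.1 X n g = 0) : vl p n F = 0 := by
  have e : cm n F = 0 := by
    funext X g
    exact h X g
  rw [vl_apply, e, map_zero]
  rfl

theorem vl_bound (p : Path k) (F : Ch k) : ∃ N, ∀ n, N ≤ n → vl p n F = 0 := by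
  obtain ⟨N, hN⟩ := F.2.2.2
  exact ⟨N + 1, fun n hn => vl_zero p n F (hN n (by omega))⟩

theorem vl_fin (p : Path k) (F : Ch k) : (Function.support (fun n => vl p n F)).Finite := by
  obtain ⟨N, hN⟩ := vl_bound p F
  refine (Finset.range N).finite_toSet.subset (fun n hn => ?_)
  rw [Finset.coe_range, Set.mem_Iio]
  by_contra h
  exact hn (hN n (by omega))

/-- The evaluation. -/
noncomputable def ee (p : Path k) : Ch k →+ k where
  toFun F := ∑ᶠ n, vl p n F
  map_zero' := by simp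
  map_add' F G := by
    simp only [map_add]
    exact finsum_add_distrib (vl_fin p F) (vl_fin p G)

theorem ee_eq (p : Path k) (F : Ch k) (N : ℕ) (hN : ∀ n, N ≤ n → vl p n F = 0) :
    ee p F = ∑ n ∈ range N, vl p n F := by
  change ∑ᶠ n, vl p n F = _
  refine finsum_eq_sum_of_support_subset _ (fun n hn => ?_)
  rw [Finset.coe_range, Set.mem_Iio]
  by_contra h
  exact hn (hN n (by omega))

theorem ee_hom (p : Path k) (n : ℕ) (F : Ch k) (hF : Hom n F) : ee p F = vl p n F := by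
  change ∑ᶠ n, vl p n F = _
  exact finsum_eq_single _ n (fun m hm => vl_zero p m F (fun X g => hF X m g hm))

theorem vl_dCh (p : Path k) {E : ∀ X : Alg k, Set (Bor X)}
    (hE : ∀ (X : Alg k) (x : X.A) (hx : x ^ 4 = 0), p.h X x hx ∈ E X) (F : Ch k)
    (hF : F ∈ inv k E) (n : ℕ) : vl p n (dCh F) = 0 := by
  cases n with
  | zero => exact vl_zero p 0 _ (fun X g => dCh_zero F X g)
  | succ n =>
    have e : cm (n + 1) (dCh F) = ∑ l ∈ range (n + 2), sk l (cm n F) := by
      funext X g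
      rw [cm_apply, dCh_succ, Finset.sum_apply, Finset.sum_apply]
      rfl
    rw [vl_apply, e, map_sum, Finset.sum_apply, Finset.sum_apply]
    refine Finset.sum_eq_zero (fun l hl => ?_)
    rw [Finset.mem_range] at hl
    rw [Rn_face p n l (by omega) (cm_nt n F) (fun X x hx g => hF X _ (hE X x hx) n g)
      (cm_lc n F)]
    rfl

theorem vl_mul (p : Path k) {E : ∀ X : Alg k, Set (Bor X)}
    (hE : ∀ (X : Alg k) (x : X.A) (hx : x ^ 4 = 0), p.h X x hx ∈ E X) (F G : Ch k)
    (hG : G ∈ inv k E) (N : ℕ) : vl p N (F * G) =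
      ∑ q ∈ antidiagonal N, vl p q.1 F * vl p q.2 G := by
  have e : cm N (F * G) = ∑ q ∈ antidiagonal N, cm q.1 F * hs q.1 (cm q.2 G) := by
    funext X g
    rw [cm_apply, coe_mul_apply, Finset.sum_apply, Finset.sum_apply]
    rfl
  rw [vl_apply, e, map_sum, Finset.sum_apply, Finset.sum_apply]
  refine Finset.sum_congr rfl (fun q hq => ?_)
  rw [HasAntidiagonal.mem_antidiagonal] at hq
  subst hq
  exact Rn_prod p q.1 q.2 (cm_nt q.1 F) (cm_lc q.1 F) (cm_nt q.2 G)
    (fun X x hx g => hG X _ (hE X x hx) q.2 g) (kk k)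

theorem sum_prod {A : Type*} [CommRing A] (a b : ℕ → A) (N M : ℕ) (ha : ∀ n, N ≤ n → a n = 0)
    (hb : ∀ n, M ≤ n → b n = 0) :
    ∑ K ∈ range (N + M), ∑ q ∈ antidiagonal K, a q.1 * b q.2 =
      (∑ n ∈ range N, a n) * ∑ n ∈ range M, b n := by
  rw [Finset.sum_mul_sum, ← Finset.sum_product',
    ← Finset.sum_fiberwise_of_maps_to (s := range N ×ˢ range M) (t := range (N + M))
      (g := fun q => q.1 + q.2)]
  · refine Finset.sum_congr rfl (fun K _ => ?_)
    symm
    refine Finset.sum_subset (fun q hq => ?_) (fun q hq hq' => ?_)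
    · rw [Finset.mem_filter] at hq
      rw [HasAntidiagonal.mem_antidiagonal]
      exact hq.2
    · rw [HasAntidiagonal.mem_antidiagonal] at hq
      rw [Finset.mem_filter, not_and] at hq'
      by_cases h1 : N ≤ q.1
      · rw [ha q.1 h1, zero_mul]
      · by_cases h2 : M ≤ q.2
        · rw [hb q.2 h2, mul_zero]
        · refine absurd hq (hq' ?_)
          rw [Finset.mem_product, Finset.mem_range, Finset.mem_range]
          omega
  · intro q hq
    rw [Finset.mem_product, Finset.mem_range, Finset.mem_range] at hq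
    rw [Finset.mem_range]
    omega

theorem ee_mul (p : Path k) {E : ∀ X : Alg k, Set (Bor X)}
    (hE : ∀ (X : Alg k) (x : X.A) (hx : x ^ 4 = 0), p.h X x hx ∈ E X) (F G : Ch k)
    (hG : G ∈ inv k E) : ee p (F * G) = ee p F * ee p G := by
  obtain ⟨N, hN⟩ := vl_bound p F
  obtain ⟨M, hM⟩ := vl_bound p G
  rw [ee_eq p F N hN, ee_eq p G M hM, ← sum_prod _ _ N M hN hM, ee_eq p (F * G) (N + M)]
  · exact Finset.sum_congr rfl (fun K _ => vl_mul p hE F G hG K)
  · intro n hn
    rw [vl_mul p hE F G hG]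
    refine Finset.sum_eq_zero (fun q hq => ?_)
    rw [HasAntidiagonal.mem_antidiagonal] at hq
    by_cases h1 : N ≤ q.1
    · rw [hN q.1 h1, zero_mul]
    · rw [hM q.2 (by omega), mul_zero]

/-- Vanishing on the sequences of points of `W`. -/
theorem Rn_van (p : Path k) (W : ∀ X : Alg k, Subgroup (Bor X))
    (hW : ∀ (X : Alg k) (x : X.A) (hx : x ^ 4 = 0), p.h X x hx ∈ W X)
    (hm : ∀ (X Y : Alg k) (φ : X.A →ₐ[k] Y.A), ∀ g ∈ W X, Bor.map φ g ∈ W Y) (n : ℕ)
    {f : Fm k} (hf : ∀ (X : Alg k) (g : ℕ → Bor X), (∀ i, g i ∈ W X) → f X g = 0) :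
    ∀ (X : Alg k) (g : ℕ → Bor X), (∀ i, g i ∈ W X) → Rn p n f X g = 0 := by
  induction n generalizing f with
  | zero => exact hf
  | succ n ih =>
    refine ih (f := R p f) (fun X g hg => ?_)
    rw [R_apply, hf, map_zero]
    intro i
    cases i with
    | zero => exact (W (t4 X)).one_mem
    | succ i => exact (W (t4 X)).mul_mem (hW _ _ _) (hm _ _ _ _ (hg i))

/-- Job EVG. -/
theorem evg : P_EVG := by
  intro k _ _ p E hE
  refine ⟨ee p, ?_, ?_, ?_, ?_, ?_⟩
  · intro c
    rw [ee_hom p 0 _ (hom_cst c), vl_apply, Rn_zero, cm_apply, cst_apply, if_pos rfl]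
    rfl
  · intro F G hG
    exact ee_mul p hE F G hG
  · intro F hF
    rw [ee_eq p (dCh F) 0 (fun n _ => vl_dCh p hE F hF n), Finset.sum_range_zero]
  · intro F hF
    have h1 : p.tg (kk k) (fun _ => 1) =
        fun _ => p.h (t4 (kk k)) (xA (kk k)) (xA_four (kk k)) := by
      funext j
      unfold Path.tg
      rw [map_one, mul_one]
    rw [ee_hom p 1 F hF, vl_apply, Rn_succ, Rn_zero, R_apply, cm_apply, h1]
  · intro W hW hm F hF
    rw [ee_eq p F 0 (fun n _ => ?_), Finset.sum_range_zero]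
    exact Rn_van p W hW hm n (fun X g hg => hF X n g hg) (kk k) _ (fun i => (W _).one_mem)

end Pool.Agent.Q53.FK
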